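import Pool.Agent.SSF.StmtsC

/-!
# Squad SSF, row HSG
-/

set_option autoImplicit false

open Set Topology

namespace Pool.Agent.SSF.H81

open Pool.Agent.LSG Pool.Agent.LPR Pool.Agent.SSF

open Classical in
/-- extension by zero -/
noncomputable def gx {X Z : Type} (A : Set X) (c1 : Z → X) (c2 : Z → OnePoint ℕ)
    (F : ↥A × OnePoint ℕ → ℝ) (z : Z) : ℝ :=
  if h : c1 z ∈ A then F (⟨c1 z, h⟩, c2 z) else 0

theorem gx_pos {X Z : Type} (A : Set X) (c1 : Z → X) (c2 : Z → OnePoint ℕ)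
    (F : ↥A × OnePoint ℕ → ℝ) (z : Z) (h : c1 z ∈ A) : gx A c1 c2 F z = F (⟨c1 z, h⟩, c2 z) :=
  dif_pos h

theorem gx_neg {X Z : Type} (A : Set X) (c1 : Z → X) (c2 : Z → OnePoint ℕ)
    (F : ↥A × OnePoint ℕ → ℝ) (z : Z) (h : c1 z ∉ A) : gx A c1 c2 F z = 0 :=
  dif_neg h

theorem gx_cont {X Z : Type} [TopologicalSpace X] [TopologicalSpace Z] {A : Set X}
    (hA : IsClosed A) {c1 : Z → X} {c2 : Z → OnePoint ℕ} (h1 : Continuous c1) (h2 : Continuous c2)
    {Q : Set Z} (hQ : IsClosed Q) (hu : ∀ z, c1 z ∈ A ∨ z ∈ Q) {F : ↥A × OnePoint ℕ → ℝ}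
    (hF : Continuous F) (h0 : ∀ z ∈ Q, ∀ h : c1 z ∈ A, F (⟨c1 z, h⟩, c2 z) = 0) :
    Continuous (gx A c1 c2 F) := by
  have hC1 : IsClosed {z : Z | c1 z ∈ A} := hA.preimage h1
  have hu' : {z : Z | c1 z ∈ A} ∪ Q = univ := by
    ext z
    exact ⟨fun _ => trivial, fun _ => hu z⟩
  rw [← continuousOn_univ, ← hu']
  refine ContinuousOn.union_of_isClosed ?_ ?_ hC1 hQ
  · rw [continuousOn_iff_continuous_domRestrict]
    have : ({z : Z | c1 z ∈ A}).domRestrict (gx A c1 c2 F) =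
        fun z => F (⟨c1 z.1, z.2⟩, c2 z.1) := by
      funext z
      exact gx_pos A c1 c2 F z.1 z.2
    rw [this]
    refine hF.comp (Continuous.prodMk ?_ (h2.comp continuous_subtype_val))
    exact Continuous.subtype_mk (h1.comp continuous_subtype_val) _
  · have h3 : ∀ z ∈ Q, gx A c1 c2 F z = (fun _ => (0 : ℝ)) z := by
      intro z hz
      by_cases h : c1 z ∈ A
      · rw [gx_pos A c1 c2 F z h]
        exact h0 z hz h
      · exact gx_neg A c1 c2 F z h
    exact continuousOn_const.congr h3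

theorem gx_add {X Z : Type} (A : Set X) (c1 : Z → X) (c2 : Z → OnePoint ℕ)
    (F G : ↥A × OnePoint ℕ → ℝ) (z : Z) :
    gx A c1 c2 (F + G) z = gx A c1 c2 F z + gx A c1 c2 G z := by
  by_cases h : c1 z ∈ A
  · rw [gx_pos A _ _ _ z h, gx_pos A _ _ _ z h, gx_pos A _ _ _ z h]
    rfl
  · rw [gx_neg A _ _ _ z h, gx_neg A _ _ _ z h, gx_neg A _ _ _ z h, add_zero]

theorem gx_smul {X Z : Type} (A : Set X) (c1 : Z → X) (c2 : Z → OnePoint ℕ) (c : ℝ)
    (F : ↥A × OnePoint ℕ → ℝ) (z : Z) :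
    gx A c1 c2 (c • F) z = c * gx A c1 c2 F z := by
  by_cases h : c1 z ∈ A
  · rw [gx_pos A _ _ _ z h, gx_pos A _ _ _ z h]
    rfl
  · rw [gx_neg A _ _ _ z h, gx_neg A _ _ _ z h, mul_zero]

/-- extension by zero as a continuous linear map -/
noncomputable def gxL {X Z : Type} [TopologicalSpace X] [TopologicalSpace Z] {A : Set X}
    (hA : IsClosed A) (W : Set ↥A) {c1 : Z → X} {c2 : Z → OnePoint ℕ} (h1 : Continuous c1)
    (h2 : Continuous c2) {Q : Set Z} (hQ : IsClosed Q) (hu : ∀ z, c1 z ∈ A ∨ z ∈ Q)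
    (h0 : ∀ z ∈ Q, ∀ h : c1 z ∈ A, (⟨c1 z, h⟩ : ↥A) ∉ W ∨ c2 z = OnePoint.infty) :
    ↥(Sg W) →L[ℝ] ↥(Cp Z) where
  toFun F := ⟨gx A c1 c2 F.1, gx_cont hA h1 h2 hQ hu F.2.1 (by
    intro z hz h
    rcases h0 z hz h with h3 | h3
    · exact F.2.2.1 _ h3 _
    · rw [h3]
      exact F.2.2.2 _)⟩
  map_add' F G := Subtype.ext (funext fun y => gx_add A c1 c2 F.1 G.1 y)
  map_smul' c F := Subtype.ext (funext fun y => gx_smul A c1 c2 c F.1 y)
  cont := by
    refine Continuous.subtype_mk (continuous_pi fun y => ?_) _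
    by_cases h : c1 y ∈ A
    · have : (fun F : ↥(Sg W) => gx A c1 c2 F.1 y) =
          fun F : ↥(Sg W) => F.1 (⟨c1 y, h⟩, c2 y) := by
        funext F
        exact gx_pos A c1 c2 F.1 y h
      show Continuous (fun F : ↥(Sg W) => gx A c1 c2 F.1 y)
      rw [this]
      exact (continuous_apply _).comp continuous_subtype_val
    · have : (fun F : ↥(Sg W) => gx A c1 c2 F.1 y) = fun _ => 0 := by
        funext F
        exact gx_neg A c1 c2 F.1 y h
      show Continuous (fun F : ↥(Sg W) => gx A c1 c2 F.1 y)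
      rw [this]
      exact continuous_const

theorem hsg (hDug : DugStmt) : HsgStmt := by
  intro X _ _ A B hA hB hAB O hO
  let OA : Set ↥A := Subtype.val ⁻¹' O
  let OB : Set ↥B := Subtype.val ⁻¹' (O \ A)
  let C : Set (X × OnePoint ℕ) := {y | y.1 ∈ A ∨ (y.1 ∉ O ∨ y.2 = OnePoint.infty)}
  have hQX : IsClosed {y : X × OnePoint ℕ | y.1 ∉ O ∨ y.2 = OnePoint.infty} :=
    (hO.isClosed_compl.preimage continuous_fst).union
      ((isClosed_singleton (x := (OnePoint.infty : OnePoint ℕ))).preimage continuous_snd)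
  have hc : IsClosed C := (hA.preimage continuous_fst).union hQX
  obtain ⟨φ, hφ⟩ := hDug (X × OnePoint ℕ) C hc
  have c1 : Continuous (fun y : ↥C => y.1.1) := continuous_fst.comp continuous_subtype_val
  have c2 : Continuous (fun y : ↥C => y.1.2) := continuous_snd.comp continuous_subtype_val
  let g1 : ↥(Sg OA) →L[ℝ] ↥(Cp ↥C) := gxL (Z := ↥C) hA OA c1 c2
    (Q := {y : ↥C | y.1.1 ∉ O ∨ y.1.2 = OnePoint.infty}) (hQX.preimage continuous_subtype_val)
    (fun z => z.2) (by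
      intro z hz h
      rcases hz with hz | hz
      · exact Or.inl hz
      · exact Or.inr hz)
  let E : ↥(Sg OA) →L[ℝ] ↥(Cp (X × OnePoint ℕ)) := φ.comp g1
  have hE : ∀ (F : ↥(Sg OA)) (y : ↥C), (E F).1 y.1 =
      gx A (fun y : ↥C => y.1.1) (fun y : ↥C => y.1.2) F.1 y := fun F y => hφ _ y
  have hE1 : ∀ (F : ↥(Sg OA)) (x : X) (n : OnePoint ℕ) (h : x ∈ A),
      (E F).1 (x, n) = F.1 (⟨x, h⟩, n) := by
    intro F x n h
    have h3 := hE F ⟨(x, n), Or.inl h⟩
    exact h3.trans (gx_pos A (fun y : ↥C => y.1.1) (fun y : ↥C => y.1.2) F.1 ⟨(x, n), Or.inl h⟩ h)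
  have hE2 : ∀ (F : ↥(Sg OA)) (x : X) (n : OnePoint ℕ), (x ∉ O ∨ n = OnePoint.infty) →
      (E F).1 (x, n) = 0 := by
    intro F x n h
    have h3 := hE F ⟨(x, n), Or.inr h⟩
    refine h3.trans ?_
    by_cases hx : x ∈ A
    · refine (gx_pos A (fun y : ↥C => y.1.1) (fun y : ↥C => y.1.2) F.1 ⟨(x, n), Or.inr h⟩ hx).trans ?_
      rcases h with h | h
      · exact F.2.2.1 ⟨x, hx⟩ h n
      · subst h
        exact F.2.2.2 ⟨x, hx⟩
    · exact gx_neg A (fun y : ↥C => y.1.1) (fun y : ↥C => y.1.2) F.1 ⟨(x, n), Or.inr h⟩ hx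
  have hcov : ∀ x : X, x ∈ A ∨ x ∈ B := by
    intro x
    have : x ∈ A ∪ B := by rw [hAB]; trivial
    exact this
  let G : ↥(Sg OB) →L[ℝ] ↥(Cp (X × OnePoint ℕ)) := gxL (Z := X × OnePoint ℕ) hB OB
    continuous_fst continuous_snd (Q := {y : X × OnePoint ℕ | y.1 ∈ A})
    (hA.preimage continuous_fst) (fun z => (hcov z.1).symm) (by
      intro z hz h
      exact Or.inl fun h3 => h3.2 hz)
  have hG1 : ∀ (F : ↥(Sg OB)) (x : X) (n : OnePoint ℕ) (h : x ∈ B),
      (G F).1 (x, n) = F.1 (⟨x, h⟩, n) := by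
    intro F x n h
    exact gx_pos B Prod.fst Prod.snd F.1 (x, n) h
  have hG2 : ∀ (F : ↥(Sg OB)) (x : X) (n : OnePoint ℕ), x ∉ B → (G F).1 (x, n) = 0 := by
    intro F x n h
    exact gx_neg B Prod.fst Prod.snd F.1 (x, n) h
  have hG3 : ∀ (F : ↥(Sg OB)) (x : X) (n : OnePoint ℕ), (x ∉ O ∨ n = OnePoint.infty) →
      (G F).1 (x, n) = 0 := by
    intro F x n h
    by_cases hx : x ∈ B
    · rw [hG1 F x n hx]
      rcases h with h | h
      · exact F.2.2.1 ⟨x, hx⟩ (fun h3 => h h3.1) n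
      · subst h
        exact F.2.2.2 ⟨x, hx⟩
    · exact hG2 F x n hx
  let S : (↥(Sg OA) × ↥(Sg OB)) →L[ℝ] ↥(Cp (X × OnePoint ℕ)) :=
    E.comp (ContinuousLinearMap.fst ℝ _ _) + G.comp (ContinuousLinearMap.snd ℝ _ _)
  have hS : ∀ (F : ↥(Sg OA) × ↥(Sg OB)) (y : X × OnePoint ℕ),
      (S F).1 y = (E F.1).1 y + (G F.2).1 y := fun F y => rfl
  let p : (↥(Sg OA) × ↥(Sg OB)) →L[ℝ] ↥(Sg O) :=
    { toFun := fun F => ⟨(S F).1, (S F).2, (by
        intro x hx n
        rw [hS, hE2 _ _ _ (Or.inl hx), hG3 _ _ _ (Or.inl hx), add_zero]), (by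
        intro x
        rw [hS, hE2 _ _ _ (Or.inr rfl), hG3 _ _ _ (Or.inr rfl), add_zero])⟩
      map_add' := fun F F' => Subtype.ext (by
        show (S (F + F')).1 = (S F).1 + (S F').1
        rw [map_add]
        rfl)
      map_smul' := fun c F => Subtype.ext (by
        show (S (c • F)).1 = c • (S F).1
        rw [map_smul]
        rfl)
      cont := Continuous.subtype_mk (continuous_subtype_val.comp S.continuous) _ }
  let rA : ↥(Sg O) →L[ℝ] ↥(Sg OA) :=
    { toFun := fun F => ⟨fun y => F.1 (y.1.1, y.2),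
        F.2.1.comp (Continuous.prodMk (continuous_subtype_val.comp continuous_fst) continuous_snd),
        fun a ha n => F.2.2.1 a.1 ha n, fun a => F.2.2.2 a.1⟩
      map_add' := fun f g => rfl
      map_smul' := fun c f => rfl
      cont := by
        refine Continuous.subtype_mk
          (f := fun f : ↥(Sg O) => fun y : ↥A × OnePoint ℕ => f.1 (y.1.1, y.2))
          (continuous_pi fun y => ?_) _
        exact (continuous_apply (y.1.1, y.2)).comp continuous_subtype_val }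
  let inc : ↥(Sg O) →L[ℝ] ↥(Cp (X × OnePoint ℕ)) :=
    { toFun := fun F => ⟨F.1, F.2.1⟩
      map_add' := fun f g => rfl
      map_smul' := fun c f => rfl
      cont := Continuous.subtype_mk continuous_subtype_val _ }
  let D : ↥(Sg O) →L[ℝ] ↥(Cp (X × OnePoint ℕ)) := inc - E.comp rA
  have hD : ∀ (F : ↥(Sg O)) (y : X × OnePoint ℕ), (D F).1 y = F.1 y - (E (rA F)).1 y :=
    fun F y => rfl
  let rB : ↥(Sg O) →L[ℝ] ↥(Sg OB) :=
    { toFun := fun F => ⟨fun y => (D F).1 (y.1.1, y.2),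
        Continuous.comp (D F).2
          (Continuous.prodMk (continuous_subtype_val.comp continuous_fst) continuous_snd), (by
        intro b hb n
        show (D F).1 (b.1, n) = 0
        rw [hD]
        by_cases hbO : b.1 ∈ O
        · have hbA : b.1 ∈ A := by
            by_contra h
            exact hb ⟨hbO, h⟩
          rw [hE1 (rA F) b.1 n hbA]
          exact sub_self _
        · rw [hE2 _ _ _ (Or.inl hbO), F.2.2.1 b.1 hbO n, sub_zero]), (by
        intro b
        show (D F).1 (b.1, OnePoint.infty) = 0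
        rw [hD, hE2 _ _ _ (Or.inr rfl), F.2.2.2 b.1, sub_zero])⟩
      map_add' := fun F F' => Subtype.ext (funext fun y => by
        show (D (F + F')).1 (y.1.1, y.2) = (D F).1 (y.1.1, y.2) + (D F').1 (y.1.1, y.2)
        rw [map_add]
        rfl)
      map_smul' := fun c F => Subtype.ext (funext fun y => by
        show (D (c • F)).1 (y.1.1, y.2) = c • (D F).1 (y.1.1, y.2)
        rw [map_smul]
        rfl)
      cont := by
        refine Continuous.subtype_mk
          (f := fun F : ↥(Sg O) => fun y : ↥B × OnePoint ℕ => (D F).1 (y.1.1, y.2))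
          (continuous_pi fun y => ?_) _
        exact (continuous_apply (y.1.1, y.2)).comp
          (continuous_subtype_val.comp D.continuous) }
  refine ⟨rA.prod rB, p, fun F => Subtype.ext (funext fun y => ?_)⟩
  obtain ⟨x, n⟩ := y
  show (E (rA F)).1 (x, n) + (G (rB F)).1 (x, n) = F.1 (x, n)
  by_cases hx : x ∈ B
  · rw [hG1 (rB F) x n hx]
    show (E (rA F)).1 (x, n) + (D F).1 (x, n) = F.1 (x, n)
    rw [hD]
    ring
  · have hxA : x ∈ A := (hcov x).resolve_right hx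
    rw [hG2 (rB F) x n hx, hE1 (rA F) x n hxA, add_zero]
    rfl

end Pool.Agent.SSF.H81
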